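import Pool.Agent.V11258.HP.Dnc

set_option autoImplicit false

/-!
There are a computable colouring `c` and a set `X` whose degree is DNC relative to the halting
set such that `X` computes no infinite set `H` with `c (x + y)` constant over distinct
`x, y ∈ H`.  In fact almost every `X` is such.
-/

namespace Pool.Agent.Results.MP_bdf372_lc.RandomVersusHindmanPairs

open MeasureTheory
open Nat.Partrec (Code)

/-- The characteristic function of the set given by `A`, as a function on `ℕ`. -/
def chi (A : ℕ → Bool) : ℕ →. ℕ := fun n => Part.some (A n).toNat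

/-- `A` is computable from `B` (Turing reducibility). -/
def TLe (A B : ℕ → Bool) : Prop := TuringReducible (chi A) (chi B)

/-- The total function `f` is computable from `B`. -/
def FLe (f : ℕ → ℕ) (B : ℕ → Bool) : Prop :=
  TuringReducible (fun n => Part.some (f n)) (chi B)

open Classical in
/-- The halting set: the pairs `(e, x)` such that the `e`-th program halts on input `x`. -/
noncomputable def halt : ℕ → Bool :=
  fun n => decide ((Code.eval (Denumerable.ofNat Code n.unpair.1) n.unpair.2).Dom)

/-- `X` has DNC degree relative to `A`, for every numbering: for each partial function `ψ`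
computable in `A` (such as `ψ e = Φ_e^A(e)` for a standard enumeration of the oracle
functionals) `X` computes a total function `f` with `f e ≠ ψ e` whenever `ψ e` is defined. -/
def DNCRel (A X : ℕ → Bool) : Prop :=
  ∀ ψ : ℕ →. ℕ, TuringReducible ψ (chi A) → ∃ f : ℕ → ℕ, FLe f X ∧ ∀ e, f e ∉ ψ e

/-- `X` computes a solution of the instance `c` of Hindman's theorem for sums of exactly two
elements: an infinite set `H` with `c (x + y)` constant over distinct `x, y ∈ H`. -/
def ComputesSolution (X c : ℕ → Bool) : Prop :=
  ∃ H : ℕ → Bool, TLe H X ∧ {n | H n = true}.Infinite ∧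
    ∃ b, ∀ x y, H x = true → H y = true → x ≠ y → c (x + y) = b

/-- The fair coin measure on Cantor space. -/
noncomputable def lam : Measure (ℕ → Bool) :=
  Measure.infinitePi (fun _ : ℕ => (PMF.uniformOfFintype Bool).toMeasure)

theorem result : ∃ c : ℕ → Bool, Computable c ∧
    (∃ X : ℕ → Bool, DNCRel halt X ∧ ¬ ComputesSolution X c) ∧
    ∀ᵐ X ∂lam, DNCRel halt X ∧ ¬ ComputesSolution X c := by
  have hae : ∀ᵐ X ∂lam, DNCRel halt X ∧ ¬ ComputesSolution X V11258.HP.cc := by
    have h1 := V11258.HP.dnc_ae halt
    have h2 : ∀ᵐ X ∂Helper227.lam, ∀ d : Code, X ∉ V11258.HP.SS d V11258.HP.cc := by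
      rw [ae_all_iff]
      intro d
      rw [ae_iff]
      simpa using V11258.HP.SS_null d
    change ∀ᵐ X ∂Helper227.lam, _
    filter_upwards [h1, h2] with X hX1 hX2
    refine ⟨hX1, ?_⟩
    rintro ⟨H, hH, hinf, b, hb⟩
    obtain ⟨d, hd⟩ := V11258.HP.mem_SS (X := X) (h := H) hH hinf hb
    exact hX2 d hd
  refine ⟨V11258.HP.cc, V11258.HP.comp_cc, ?_, hae⟩
  have : (ae lam).NeBot := by
    change (ae Helper227.lam).NeBot
    infer_instance
  exact hae.exists

end Pool.Agent.Results.MP_bdf372_lc.RandomVersusHindmanPairs
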